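import Pool.Agent.Lib.MP_c11f22_co.K3.All

/-!
# There is no 8-regular graph with pairwise different triangle degrees
-/

set_option autoImplicit false

namespace Pool.Agent.Results.MP_c11f22_co.EightRegular

/-- Every finite simple 8-regular graph has two different vertices which lie in the same number of
triangles. -/
theorem result {V : Type*} [Fintype V] [DecidableEq V] [Nonempty V] (G : SimpleGraph V)
    [DecidableRel G.Adj] (hG : G.IsRegularOfDegree 8) :
    ∃ v w : V, v ≠ w ∧
      ((G.cliqueFinset 3).filter (fun s => v ∈ s)).card =
        ((G.cliqueFinset 3).filter (fun s => w ∈ s)).card := by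
  by_contra h
  push Not at h
  refine Pool.Agent.K3.main_all Pool.Agent.K3.all_refuted G hG ?_
  intro v w hvw
  by_contra hne
  exact h v w hne hvw

end Pool.Agent.Results.MP_c11f22_co.EightRegular
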